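import Pool.Agent.H56.WN.WHB
import Pool.Agent.H28.WN.FRdef
import Pool.Agent.H24.WN.Com

/-!
The correlations of a vector along the multiples of the primes of a level are near to sums of few
cosines (MP_c59857_nt, white noise, row PNT).
-/

set_option autoImplicit false

open Finset Filter Topology

namespace Pool.Agent.H56.WN

open Pool.Agent.H6.N4D Pool.Agent.H93.DE Pool.Agent.H93 Pool.Agent.H28.WN

/-- a level is the union of its octaves -/
theorem sum_QQ (F : ℕ → ℝ) (w : ℕ) :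
    ∑ q ∈ EB.QQ w, F q = ∑ m ∈ Ico (w / 400) (w / 200), ∑ q ∈ oct m, F q := by
  unfold EB.QQ oct
  simp only [sum_filter]
  obtain ⟨d, hd⟩ : ∃ d, w / 200 = w / 400 + d := ⟨w / 200 - w / 400, by omega⟩
  rw [hd]
  generalize w / 400 = a
  clear hd w
  induction d with
  | zero => simp
  | succ n ih =>
    rw [← add_assoc, sum_Ico_succ_top (by omega), ← ih]
    rw [sum_Ioc_consecutive _ (Nat.pow_le_pow_right (by norm_num) (by omega))
      (Nat.pow_le_pow_right (by norm_num) (by omega))]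

/-- from octaves to levels -/
theorem level_tendsto (g : ℕ → ℝ) (hg : ∀ q, 0 ≤ g q)
    (h : Tendsto (fun m => (∑ q ∈ oct m, g q) / ((oct m).card : ℝ)) atTop (𝓝 0)) (ε : ℝ)
    (hε : 0 < ε) : ∀ᶠ w in atTop, ∑ q ∈ EB.QQ w, 1 / (q : ℝ) * g q ≤
      ε * ∑ q ∈ EB.QQ w, 1 / (q : ℝ) := by
  have h1 := h.eventually (eventually_le_nhds (show (0 : ℝ) < ε / 2 by positivity))
  obtain ⟨m₀, hm₀⟩ := eventually_atTop.1 h1
  filter_upwards [eventually_ge_atTop (400 * m₀)] with w hw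
  rw [sum_QQ, sum_QQ, mul_sum]
  apply sum_le_sum
  intro m hm
  rw [mem_Ico] at hm
  have hm1 : m₀ ≤ m := by
    have : m₀ ≤ w / 400 := by omega
    omega
  have h2 := hm₀ m hm1
  have hq : ∀ q ∈ oct m, 2 ^ m < q ∧ q ≤ 2 ^ (m + 1) := by
    intro q hq
    unfold oct at hq
    rw [mem_filter, mem_Ioc] at hq
    exact hq.1
  rcases Nat.eq_zero_or_pos (oct m).card with h0 | h0
  · rw [card_eq_zero] at h0
    rw [h0]
    simp
  · have h0' : (0 : ℝ) < (oct m).card := by exact_mod_cast h0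
    rw [div_le_iff₀ h0'] at h2
    have h3 : ∑ q ∈ oct m, 1 / (q : ℝ) * g q ≤ 1 / 2 ^ m * ∑ q ∈ oct m, g q := by
      rw [mul_sum]
      apply sum_le_sum
      intro q hq'
      apply mul_le_mul_of_nonneg_right _ (hg q)
      have h4 : ((2 : ℝ) ^ m) ≤ q := by exact_mod_cast (hq q hq').1.le
      exact one_div_le_one_div_of_le (by positivity) h4
    have h5 : ((oct m).card : ℝ) * (1 / 2 ^ (m + 1)) ≤ ∑ q ∈ oct m, 1 / (q : ℝ) := by
      rw [← nsmul_eq_mul, ← sum_const]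
      apply sum_le_sum
      intro q hq'
      have h4 : (q : ℝ) ≤ (2 : ℝ) ^ (m + 1) := by exact_mod_cast (hq q hq').2
      have h6 : (0 : ℝ) < q := by
        have : 0 < q := lt_of_le_of_lt (Nat.zero_le _) (hq q hq').1
        exact_mod_cast this
      exact one_div_le_one_div_of_le h6 h4
    calc ∑ q ∈ oct m, 1 / (q : ℝ) * g q ≤ 1 / 2 ^ m * ∑ q ∈ oct m, g q := h3
      _ ≤ 1 / 2 ^ m * (ε / 2 * (oct m).card) := by gcongr
      _ = ε * ((oct m).card * (1 / 2 ^ (m + 1))) := by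
          rw [pow_succ]
          field_simp
      _ ≤ ε * ∑ q ∈ oct m, 1 / (q : ℝ) := by gcongr

variable {E : Type*} [NormedAddCommGroup E] [InnerProductSpace ℂ E]

/-- the discrete part is a sum of few cosines up to a small error -/
theorem dist_cs (b th : ℕ → ℝ) (hb : ∀ j, 0 ≤ b j) (hs : Summable b) (hm : ∑' j, b j ≤ 2)
    (r : ℕ → ℂ) (e : ℕ → ℝ) (hr : ∀ h : ℕ, ∃ S : ℂ,
      HasSum (fun j => (b j : ℂ) * ee (h * th j)) S ∧ ‖r h - S‖ ≤ e h) (R H q : ℕ) :
    FR R H (fun k => (r (q * k)).re) ≤ ∑' j, b (j + R) + ∑ k ∈ Icc 1 H, e (q * k) := by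
  have he : ∀ h, 0 ≤ e h := fun h => by
    obtain ⟨S, _, h2⟩ := hr h
    exact (norm_nonneg _).trans h2
  have htail : 0 ≤ ∑' j, b (j + R) := tsum_nonneg (fun j => hb _)
  have hpar : ∑ j : Fin R, b j ≤ 2 := by
    refine le_trans ?_ hm
    rw [Fin.sum_univ_eq_sum_range (fun j => b j) R]
    exact hs.sum_le_tsum _ (fun j _ => hb j)
  refine FR_le_of ⟨(fun j : Fin R => b j, fun j : Fin R => q * th j), fun j => hb _, hpar⟩
    (add_nonneg htail (sum_nonneg (fun k _ => he _))) (fun k h1 h2 => ?_)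
  obtain ⟨S, hS, hS2⟩ := hr (q * k)
  have hcs : cs (⟨(fun j : Fin R => b j, fun j : Fin R => q * th j), fun j => hb _, hpar⟩ :
      Par R) k = (∑ j ∈ range R, (b j : ℂ) * ee (((q * k : ℕ) : ℝ) * th j)).re := by
    unfold cs
    rw [Complex.re_sum]
    rw [← Fin.sum_univ_eq_sum_range (fun j => ((b j : ℂ) * ee (((q * k : ℕ) : ℝ) * th j)).re) R]
    apply sum_congr rfl
    intro j _
    rw [Complex.re_ofReal_mul]
    congr 1
    unfold ee
    rw [Complex.exp_ofReal_mul_I_re]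
    congr 1
    push_cast
    ring
  have hsum : Summable (fun j => (b j : ℂ) * ee (((q * k : ℕ) : ℝ) * th j)) := hS.summable
  have hsplit := hsum.sum_add_tsum_nat_add R
  rw [hS.tsum_eq] at hsplit
  have htl : ‖∑' j, (b (j + R) : ℂ) * ee (((q * k : ℕ) : ℝ) * th (j + R))‖ ≤
      ∑' j, b (j + R) := by
    have hn : ∀ j, ‖(b (j + R) : ℂ) * ee (((q * k : ℕ) : ℝ) * th (j + R))‖ = b (j + R) := by
      intro j
      rw [norm_mul, norm_ee, mul_one, Complex.norm_real, Real.norm_of_nonneg (hb _)]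
    have hs' : Summable (fun j => b (j + R)) := (summable_nat_add_iff R).2 hs
    refine (norm_tsum_le_tsum_norm ?_).trans (le_of_eq ?_)
    · simpa only [hn] using hs'
    · exact tsum_congr hn
  rw [hcs, ← Complex.sub_re]
  refine (Complex.abs_re_le_norm _).trans ?_
  have h3 : r (q * k) - ∑ j ∈ range R, (b j : ℂ) * ee (((q * k : ℕ) : ℝ) * th j) =
      (r (q * k) - S) + ∑' j, (b (j + R) : ℂ) * ee (((q * k : ℕ) : ℝ) * th (j + R)) := by
    rw [← hsplit]
    ring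
  rw [h3]
  refine (norm_add_le _ _).trans ?_
  have h4 : e (q * k) ≤ ∑ k ∈ Icc 1 H, e (q * k) :=
    single_le_sum (f := fun k => e (q * k)) (fun k _ => he _) (mem_Icc.2 ⟨h1, h2⟩)
  linarith

/-- **Row PNT.** The correlations along the multiples of the primes of a level are near to sums
of few cosines. -/
theorem pnt [CompleteSpace E] (U : E →L[ℂ] E) (hU : ∀ v, ‖U v‖ = ‖v‖) (v : E) (hv : ‖v‖ ≤ 1)
    (ε : ℝ) (hε : 0 < ε) : ∃ R₀ : ℕ, ∀ R, R₀ ≤ R → ∀ H : ℕ, ∀ᶠ w in atTop,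
      ∑ q ∈ EB.QQ w, 1 / (q : ℝ) * FR R H (fun k => (inner ℂ v (U^[q * k] v)).re) ≤
        ε * ∑ q ∈ EB.QQ w, 1 / (q : ℝ) := by
  obtain ⟨h1, ⟨b, th, hb, hs, hm, hc⟩, _⟩ := Pool.Agent.H24.WN.com U hU v
  set u := Pool.Agent.H24.WN.cp U v with hu
  have hm2 : ∑' j, b j ≤ 2 := by
    have h2 : ‖v‖ ^ 2 ≤ 1 := pow_le_one₀ (norm_nonneg _) hv
    have h3 : 0 ≤ ‖u‖ ^ 2 := by positivity
    linarith
  have ht := tendsto_sum_nat_add b
  have ht2 := ht.eventually (eventually_le_nhds (show (0 : ℝ) < ε / 2 by positivity))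
  obtain ⟨R₀, hR₀⟩ := eventually_atTop.1 ht2
  refine ⟨R₀, fun R hR H => ?_⟩
  obtain ⟨V, hV⟩ : ∃ V : E →ₗᵢ[ℂ] E, ∀ x, V x = U x := ⟨⟨U.toLinearMap, hU⟩, fun _ => rfl⟩
  have hVU : (⇑V) = (⇑U) := funext hV
  have hperp : ∀ (z : ℂ) (x : E), ‖z‖ = 1 → V x = z • x → inner ℂ u x = 0 := by
    intro z x hz hx
    rw [hV] at hx
    have h2 := h1 z x hz hx
    rw [← inner_conj_symm, h2, map_zero]
  obtain ⟨e, he⟩ : ∃ e : ℕ → ℝ, ∀ h, e h = ‖inner ℂ u (U^[h] u)‖ := ⟨_, fun _ => rfl⟩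
  have hev : Tendsto (fun m => (∑ q ∈ oct m, ∑ k ∈ Icc 1 H, e (q * k)) / ((oct m).card : ℝ))
      atTop (𝓝 0) := by
    have h2 : Tendsto (fun m => ∑ k ∈ Icc 1 H, (∑ q ∈ oct m, e (q * k)) / ((oct m).card : ℝ))
        atTop (𝓝 (∑ k ∈ Icc 1 H, (0 : ℝ))) := by
      apply tendsto_finsetSum
      intro k hk
      rw [mem_Icc] at hk
      have h3 := whb V u hperp k hk.1
      refine h3.congr (fun m => ?_)
      congr 1
      apply sum_congr rfl
      intro q _
      rw [he, hVU]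
    rw [sum_const_zero] at h2
    refine h2.congr (fun m => ?_)
    rw [← sum_div, sum_comm]
  have hlev := level_tendsto (fun q => ∑ k ∈ Icc 1 H, e (q * k))
    (fun q => sum_nonneg (fun k _ => by rw [he]; exact norm_nonneg _)) hev (ε / 2) (by positivity)
  filter_upwards [hlev] with w hw
  have h2 : ∀ q ∈ EB.QQ w, 1 / (q : ℝ) * FR R H (fun k => (inner ℂ v (U^[q * k] v)).re) ≤
      1 / (q : ℝ) * (ε / 2) + 1 / (q : ℝ) * ∑ k ∈ Icc 1 H, e (q * k) := by
    intro q _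
    rw [← mul_add]
    apply mul_le_mul_of_nonneg_left _ (by positivity)
    have h3 := dist_cs b th hb hs hm2 (fun h => inner ℂ v (U^[h] v)) e
      (fun h => ⟨_, hc h, by rw [he]; simp⟩) R H q
    have h4 := hR₀ R hR
    linarith
  refine (sum_le_sum h2).trans ?_
  rw [sum_add_distrib, ← sum_mul]
  linarith

end Pool.Agent.H56.WN
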