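import Mathlib
import Pool.Agent.H6.N4D.Defs

/-!
Twisted ergodic averages of a vector without eigenvalue part tend to zero uniformly in the
frequency (MP_c59857_nt, white noise).
-/

set_option autoImplicit false

open Finset Filter Topology

namespace Pool.Agent.H56.WN

open Pool.Agent.H6.N4D

variable {E : Type*} [NormedAddCommGroup E] [InnerProductSpace ℂ E]

/-- the twisted sum -/
noncomputable def TS (U : E →ₗᵢ[ℂ] E) (u : E) (M : ℕ) (θ : ℝ) : E :=
  ∑ s ∈ range M, ee (-(s * θ)) • ((⇑U)^[s] u)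

theorem iter_norm (U : E →ₗᵢ[ℂ] E) (u : E) (s : ℕ) : ‖(⇑U)^[s] u‖ = ‖u‖ := by
  induction s with
  | zero => rfl
  | succ n ih => rw [Function.iterate_succ_apply', U.norm_map, ih]

theorem iter_sum (U : E →ₗᵢ[ℂ] E) (ι : Type*) (S : Finset ι) (c : ι → ℂ) (v : ι → E) (M : ℕ) :
    (⇑U)^[M] (∑ i ∈ S, c i • v i) = ∑ i ∈ S, c i • ((⇑U)^[M] (v i)) := by
  induction M with
  | zero => rfl
  | succ n ih =>
    rw [Function.iterate_succ_apply', ih, map_sum]
    apply sum_congr rfl
    intro i _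
    rw [map_smul, Function.iterate_succ_apply']

theorem TS_double (U : E →ₗᵢ[ℂ] E) (u : E) (M : ℕ) (θ : ℝ) :
    TS U u (2 * M) θ = TS U u M θ + ee (-(M * θ)) • ((⇑U)^[M] (TS U u M θ)) := by
  unfold TS
  rw [two_mul, sum_range_add]
  congr 1
  rw [iter_sum, smul_sum]
  apply sum_congr rfl
  intro s _
  rw [smul_smul, ← ee_add, ← Function.iterate_add_apply]
  congr 2
  push_cast
  ring

theorem TS_norm_double (U : E →ₗᵢ[ℂ] E) (u : E) (M : ℕ) (θ : ℝ) :
    ‖TS U u (2 * M) θ‖ ≤ 2 * ‖TS U u M θ‖ := by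
  rw [TS_double]
  refine (norm_add_le _ _).trans ?_
  rw [norm_smul, norm_ee, iter_norm]
  linarith

theorem TS_cont (U : E →ₗᵢ[ℂ] E) (u : E) (M : ℕ) : Continuous (TS U u M) := by
  unfold TS
  apply continuous_finsetSum
  intro s _
  apply Continuous.smul _ continuous_const
  unfold ee
  fun_prop

/-- the mean ergodic theorem for one frequency -/
theorem TS_tendsto [CompleteSpace E] (U : E →ₗᵢ[ℂ] E) (u : E)
    (hu : ∀ (z : ℂ) (v : E), ‖z‖ = 1 → U v = z • v → inner ℂ u v = 0) (θ : ℝ) :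
    Tendsto (fun M : ℕ => ((M : ℂ))⁻¹ • TS U u M θ) atTop (𝓝 0) := by
  set V : E →L[ℂ] E := ee (-θ) • (U.toContinuousLinearMap) with hV
  have hVn : ‖V‖ ≤ 1 := by
    rw [hV, norm_smul, norm_ee, one_mul]
    exact U.norm_toContinuousLinearMap_le
  have hVa : ∀ v, V v = ee (-θ) • U v := fun v => rfl
  have hVs : ∀ (s : ℕ), (⇑V)^[s] u = ee (-(s * θ)) • ((⇑U)^[s] u) := by
    intro s
    induction s with
    | zero => simp [ee]
    | succ n ih =>
      rw [Function.iterate_succ_apply', ih, hVa, map_smul, smul_smul, ← ee_add,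
        Function.iterate_succ_apply']
      congr 2
      push_cast
      ring
  have h1 := V.tendsto_birkhoffAverage_orthogonalProjection hVn u
  have h2 : ((V.eqLocus (1 : E →L[ℂ] E)).orthogonalProjectionOnto u : E) = 0 := by
    have h3 : u ∈ (V.eqLocus (1 : E →L[ℂ] E))ᗮ := by
      rw [Submodule.mem_orthogonal']
      intro v hv
      have h4 : V v = v := by simpa using hv
      apply hu (ee θ) v (norm_ee θ)
      rw [hVa] at h4
      calc U v = ee θ • (ee (-θ) • U v) := by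
            rw [smul_smul, ← ee_add]
            simp [ee]
        _ = ee θ • v := by rw [h4]
    rw [Submodule.orthogonalProjectionOnto_eq_zero_iff.2 h3]
    rfl
  rw [h2] at h1
  refine h1.congr (fun M => ?_)
  unfold birkhoffAverage birkhoffSum TS
  congr 1
  exact sum_congr rfl (fun s _ => hVs s)

/-- uniformity in the frequency -/
theorem TS_unif [CompleteSpace E] (U : E →ₗᵢ[ℂ] E) (u : E)
    (hu : ∀ (z : ℂ) (v : E), ‖z‖ = 1 → U v = z • v → inner ℂ u v = 0) (ε : ℝ) (hε : 0 < ε) :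
    ∃ j₀ : ℕ, ∀ j, j₀ ≤ j → ∀ θ : ℝ, 0 ≤ θ → θ ≤ 1 → ‖TS U u (2 ^ j) θ‖ ≤ ε * 2 ^ j := by
  set F : ℕ → ℝ → ℝ := fun j θ => ‖TS U u (2 ^ j) θ‖ / 2 ^ j with hF
  have h1 : TendstoUniformlyOn F (fun _ => (0 : ℝ)) atTop (Set.Icc 0 1) := by
    apply Antitone.tendstoUniformlyOn_of_forall_tendsto isCompact_Icc
    · intro j
      exact ((TS_cont U u (2 ^ j)).norm.div_const _).continuousOn
    · intro θ _
      apply antitone_nat_of_succ_le
      intro j
      simp only [hF]
      rw [pow_succ', div_le_div_iff₀ (by positivity) (by positivity)]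
      have h2 := TS_norm_double U u (2 ^ j) θ
      calc ‖TS U u (2 * 2 ^ j) θ‖ * 2 ^ j ≤ (2 * ‖TS U u (2 ^ j) θ‖) * 2 ^ j := by gcongr
        _ = _ := by rw [pow_succ']; ring
    · exact continuousOn_const
    · intro θ _
      have h2 := (TS_tendsto U u hu θ).norm
      rw [norm_zero] at h2
      have h3 : Tendsto (fun j : ℕ => 2 ^ j) atTop (atTop : Filter ℕ) :=
        tendsto_pow_atTop_atTop_of_one_lt (by norm_num)
      refine (h2.comp h3).congr (fun j => ?_)
      simp only [Function.comp, hF]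
      rw [norm_smul, norm_inv]
      push_cast
      rw [norm_pow]
      norm_num
      ring
  rw [Metric.tendstoUniformlyOn_iff] at h1
  obtain ⟨j₀, hj₀⟩ := eventually_atTop.1 (h1 ε hε)
  refine ⟨j₀, fun j hj θ h0 h1 => ?_⟩
  have h2 := hj₀ j hj θ ⟨h0, h1⟩
  rw [Real.dist_eq, zero_sub, abs_neg, abs_of_nonneg (by simp only [hF]; positivity)] at h2
  simp only [hF] at h2
  rw [div_lt_iff₀ (by positivity)] at h2
  exact h2.le

end Pool.Agent.H56.WN
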