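import Pool.Agent.H56.WN.Avg
import Pool.Agent.H56.QP.FMC
import Pool.Agent.H93.DE.PIL

/-!
Correlations of a vector without eigenvalue part along multiples of the primes of an octave
(MP_c59857_nt, white noise).
-/

set_option autoImplicit false

open Finset Filter Topology

namespace Pool.Agent.H56.WN

open Pool.Agent.H6.N4D Pool.Agent.H93.DE Pool.Agent.H56.QP

variable {E : Type*} [NormedAddCommGroup E] [InnerProductSpace ℂ E]

theorem inner_iter (U : E →ₗᵢ[ℂ] E) (u : E) (s a : ℕ) :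
    inner ℂ ((⇑U)^[s] u) ((⇑U)^[s + a] u) = inner ℂ u ((⇑U)^[a] u) := by
  induction s with
  | zero => simp
  | succ n ih =>
    rw [show n + 1 + a = (n + a) + 1 by ring, Function.iterate_succ_apply',
      Function.iterate_succ_apply', U.inner_map_map, ih]

/-- Parseval for the twisted sums, no wrap around -/
theorem TS_key (U : E →ₗᵢ[ℂ] E) (u : E) (M a : ℕ) (hM : 0 < M) (ha : a ≤ M) :
    ∑ ξ ∈ range (2 * M), ((‖TS U u M (ξ / (2 * M : ℕ))‖ ^ 2 : ℝ) : ℂ) *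
      ee ((a : ℝ) * ξ / (2 * M : ℕ)) = (2 * M : ℕ) * ((M - a : ℕ) : ℂ) *
      inner ℂ u ((⇑U)^[a] u) := by
  have hMr : (0 : ℝ) < M := by exact_mod_cast hM
  have e1 : ∀ ξ : ℕ, ((‖TS U u M (ξ / (2 * M : ℕ))‖ ^ 2 : ℝ) : ℂ) *
      ee ((a : ℝ) * ξ / (2 * M : ℕ)) = ∑ s ∈ range M, ∑ t ∈ range M,
      inner ℂ ((⇑U)^[s] u) ((⇑U)^[t] u) *
        ee ((((s : ℤ) - t + a : ℤ) : ℝ) * ξ / (2 * M : ℕ)) := by
    intro ξ
    have h1 : ((‖TS U u M (ξ / (2 * M : ℕ))‖ ^ 2 : ℝ) : ℂ) =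
        inner ℂ (TS U u M (ξ / (2 * M : ℕ))) (TS U u M (ξ / (2 * M : ℕ))) := by
      rw [inner_self_eq_norm_sq_to_K]
      push_cast
      rfl
    rw [h1]
    unfold TS
    rw [sum_inner, sum_mul]
    apply sum_congr rfl
    intro s _
    rw [inner_sum, sum_mul]
    apply sum_congr rfl
    intro t _
    rw [inner_smul_left, inner_smul_right, Pool.Agent.H6.GS2.conj_ee]
    rw [show ee (- -(↑s * (↑ξ / ↑(2 * M)))) * (ee (-(↑t * (↑ξ / ↑(2 * M)))) *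
        inner ℂ ((⇑U)^[s] u) ((⇑U)^[t] u)) * ee (↑a * ↑ξ / ↑(2 * M)) =
        inner ℂ ((⇑U)^[s] u) ((⇑U)^[t] u) * (ee (- -(↑s * (↑ξ / ↑(2 * M)))) *
        ee (-(↑t * (↑ξ / ↑(2 * M)))) * ee (↑a * ↑ξ / ↑(2 * M))) by ring, ← ee_add, ← ee_add]
    congr 2
    push_cast
    ring
  rw [sum_congr rfl (fun ξ _ => e1 ξ), sum_comm]
  have e2 : ∀ s ∈ range M, ∑ ξ ∈ range (2 * M), ∑ t ∈ range M,
      inner ℂ ((⇑U)^[s] u) ((⇑U)^[t] u) *
        ee ((((s : ℤ) - t + a : ℤ) : ℝ) * ξ / (2 * M : ℕ)) =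
      if s < M - a then ((2 * M : ℕ) : ℂ) * inner ℂ u ((⇑U)^[a] u) else 0 := by
    intro s hs
    rw [mem_range] at hs
    rw [sum_comm]
    have e3 : ∀ t ∈ range M, ∑ ξ ∈ range (2 * M), inner ℂ ((⇑U)^[s] u) ((⇑U)^[t] u) *
        ee ((((s : ℤ) - t + a : ℤ) : ℝ) * ξ / (2 * M : ℕ)) =
        if t = s + a then ((2 * M : ℕ) : ℂ) * inner ℂ u ((⇑U)^[a] u) else 0 := by
      intro t ht
      rw [mem_range] at ht
      rw [← mul_sum]
      split_ifs with h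
      · subst h
        rw [inner_iter]
        have h0 : (((s : ℤ) - (s + a : ℕ) + a : ℤ) : ℝ) = 0 := by push_cast; ring
        rw [h0]
        simp only [zero_mul, zero_div]
        have h1 : ee 0 = 1 := by simp [ee]
        rw [h1, sum_const, card_range]
        simp only [nsmul_eq_mul, mul_one]
        ring
      · rw [orth (2 * M) _ (by omega) (by
          rw [abs_lt]; push_cast; constructor <;> omega), mul_zero]
    rw [sum_congr rfl e3, sum_ite_eq']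
    simp only [mem_range]
    by_cases h : s < M - a
    · rw [if_pos (by omega), if_pos h]
    · rw [if_neg (by omega), if_neg h]
  rw [sum_congr rfl e2, ← sum_filter, sum_const, nsmul_eq_mul]
  have h3 : ((range M).filter (fun s => s < M - a)) = range (M - a) := by
    ext x
    simp only [mem_filter, mem_range]
    omega
  rw [h3, card_range]
  ring

/-- the total mass of the twisted sums -/
theorem TS_mass (U : E →ₗᵢ[ℂ] E) (u : E) (M : ℕ) (hM : 0 < M) :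
    ∑ ξ ∈ range (2 * M), ‖TS U u M (ξ / (2 * M : ℕ))‖ ^ 2 = 2 * (M : ℝ) ^ 2 * ‖u‖ ^ 2 := by
  have h1 := TS_key U u M 0 hM (Nat.zero_le M)
  have h2 : ∀ ξ : ℕ, ee (((0 : ℕ) : ℝ) * ξ / (2 * M : ℕ)) = 1 := by
    intro ξ
    simp [ee]
  simp only [h2, mul_one] at h1
  rw [Function.iterate_zero, id_eq, inner_self_eq_norm_sq_to_K] at h1
  have h3 : ((∑ ξ ∈ range (2 * M), ‖TS U u M (ξ / (2 * M : ℕ))‖ ^ 2 : ℝ) : ℂ) =
      ((2 * (M : ℝ) ^ 2 * ‖u‖ ^ 2 : ℝ) : ℂ) := by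
    rw [Complex.ofReal_sum, h1]
    push_cast
    simp
    left
    ring
  exact_mod_cast h3

/-- the correlations along the multiples `q k` of the primes of an octave, one bound -/
theorem corr_le (U : E →ₗᵢ[ℂ] E) (u : E) (S : Finset ℕ) (m k M : ℕ) (η : ℝ) (hk : 1 ≤ k)
    (hM : 4 * 2 ^ m * k ≤ M) (hS : ∀ q ∈ S, 2 ^ m ≤ q ∧ q ≤ 2 ^ (m + 1))
    (hη : ∀ θ : ℝ, 0 ≤ θ → θ ≤ 1 → ‖TS U u M θ‖ ^ 2 ≤ η * (M : ℝ) ^ 2) :
    (∑ q ∈ S, ‖inner ℂ u ((⇑U)^[q * k] u)‖) ^ 4 ≤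
      (16 * η * ‖u‖ ^ 6) * (2 * M * (Quad S).card) := by
  have hM0 : 0 < M := by
    have : 0 < 2 ^ m := by positivity
    have : 0 < 4 * 2 ^ m * k := by positivity
    omega
  have hMr : (0 : ℝ) < M := by exact_mod_cast hM0
  have hpp : 2 ^ (m + 1) = 2 * 2 ^ m := by ring
  have hqk : ∀ q ∈ S, 2 * (q * k) ≤ M := by
    intro q hq
    have h1 := (hS q hq).2
    rw [hpp] at h1
    calc 2 * (q * k) ≤ 2 * (2 * 2 ^ m * k) := by gcongr
      _ = 4 * 2 ^ m * k := by ring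
      _ ≤ M := hM
  -- phases
  have hph : ∀ z : ℂ, ∃ c : ℂ, ‖c‖ ≤ 1 ∧ c * z = (‖z‖ : ℂ) := by
    intro z
    by_cases hz : z = 0
    · exact ⟨0, by simp, by simp [hz]⟩
    · have hz' : (‖z‖ : ℂ) ≠ 0 := by
        exact_mod_cast norm_ne_zero_iff.2 hz
      refine ⟨(starRingEnd ℂ) z / ‖z‖, ?_, ?_⟩
      · rw [norm_div, RCLike.norm_conj, Complex.norm_real, norm_norm,
          div_self (norm_ne_zero_iff.2 hz)]
      · rw [div_mul_eq_mul_div, mul_comm, Complex.mul_conj']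
        field_simp
  choose ph hph1 hph2 using hph
  obtain ⟨e, he⟩ : ∃ e : ℕ → ℂ, ∀ q, e q = if q ∈ S then
      ph (inner ℂ u ((⇑U)^[q * k] u)) * ((M : ℂ) / (2 * ((M - q * k : ℕ) : ℂ))) else 0 :=
    ⟨fun q => if q ∈ S then
      ph (inner ℂ u ((⇑U)^[q * k] u)) * ((M : ℂ) / (2 * ((M - q * k : ℕ) : ℂ))) else 0,
      fun q => rfl⟩
  have hsub : ∀ q ∈ S, (M : ℝ) ≤ 2 * ((M - q * k : ℕ) : ℝ) := by
    intro q hq
    have h1 := hqk q hq
    have h2 : M ≤ 2 * (M - q * k) := by omega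
    exact_mod_cast h2
  have he1 : ∀ q, ‖e q‖ ≤ 1 := by
    intro q
    rw [he]
    split_ifs with hq
    · rw [norm_mul]
      apply mul_le_one₀ (hph1 _) (norm_nonneg _)
      rw [norm_div, norm_mul]
      simp only [Complex.norm_natCast, Complex.norm_ofNat]
      have h1 := hsub q hq
      exact div_le_one_of_le₀ h1 (by positivity)
    · simp
  -- the sum as an integral over the frequencies
  have key : ((∑ q ∈ S, ‖inner ℂ u ((⇑U)^[q * k] u)‖ : ℝ) : ℂ) * ((M : ℂ) ^ 2) =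
      ∑ ξ ∈ range (2 * M), ((‖TS U u M (ξ / (2 * M : ℕ))‖ ^ 2 : ℝ) : ℂ) *
        PC S e k (2 * M) ξ := by
    unfold PC
    have h1 : ∀ ξ ∈ range (2 * M), ((‖TS U u M (ξ / (2 * M : ℕ))‖ ^ 2 : ℝ) : ℂ) *
        ∑ q ∈ S, e q * ee ((((q : ℤ) * k : ℤ) : ℝ) * ξ / (2 * M : ℕ)) =
        ∑ q ∈ S, e q * (((‖TS U u M (ξ / (2 * M : ℕ))‖ ^ 2 : ℝ) : ℂ) *
          ee (((q * k : ℕ) : ℝ) * ξ / (2 * M : ℕ))) := by
      intro ξ _
      rw [mul_sum]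
      apply sum_congr rfl
      intro q _
      push_cast
      ring
    rw [sum_congr rfl h1, sum_comm, Complex.ofReal_sum, sum_mul]
    apply sum_congr rfl
    intro q hq
    rw [← mul_sum, TS_key U u M (q * k) hM0 (by have := hqk q hq; omega), he, if_pos hq,
      ← hph2]
    have h2 : ((M - q * k : ℕ) : ℂ) ≠ 0 := by
      have h3 := hsub q hq
      have h4 : (0 : ℝ) < ((M - q * k : ℕ) : ℝ) := by linarith
      exact_mod_cast h4.ne'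
    push_cast
    field_simp
  obtain ⟨A, hA⟩ : ∃ A : ℝ, A = ∑ q ∈ S, ‖inner ℂ u ((⇑U)^[q * k] u)‖ := ⟨_, rfl⟩
  have hA0 : 0 ≤ A := by rw [hA]; exact sum_nonneg (fun _ _ => norm_nonneg _)
  obtain ⟨w, hw⟩ : ∃ w : ℕ → ℝ, ∀ ξ, w ξ = ‖TS U u M (ξ / (2 * M : ℕ))‖ ^ 2 := ⟨_, fun _ => rfl⟩
  have hw0 : ∀ ξ, 0 ≤ w ξ := fun ξ => by rw [hw]; positivity
  have hwM : ∀ ξ ∈ range (2 * M), w ξ ≤ η * (M : ℝ) ^ 2 := by
    intro ξ hξ
    rw [hw]
    rw [mem_range] at hξ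
    apply hη
    · positivity
    · rw [div_le_one (by positivity)]
      exact_mod_cast hξ.le
  have hws : ∑ ξ ∈ range (2 * M), w ξ = 2 * (M : ℝ) ^ 2 * ‖u‖ ^ 2 := by
    rw [← TS_mass U u M hM0]
    exact sum_congr rfl (fun ξ _ => hw ξ)
  have h1 : A * (M : ℝ) ^ 2 ≤ ∑ ξ ∈ range (2 * M), w ξ * ‖PC S e k (2 * M) ξ‖ := by
    have h2 : A * (M : ℝ) ^ 2 = ‖((A : ℝ) : ℂ) * ((M : ℂ) ^ 2)‖ := by
      rw [norm_mul, norm_pow, Complex.norm_real, Real.norm_of_nonneg hA0, Complex.norm_natCast]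
    rw [h2, hA, key]
    refine (norm_sum_le _ _).trans (le_of_eq (sum_congr rfl (fun ξ _ => ?_)))
    rw [norm_mul, Complex.norm_real, Real.norm_of_nonneg (by positivity), hw]
  -- Cauchy Schwarz twice
  have h2 : (∑ ξ ∈ range (2 * M), w ξ * ‖PC S e k (2 * M) ξ‖) ^ 2 ≤
      (∑ ξ ∈ range (2 * M), w ξ) * ∑ ξ ∈ range (2 * M), w ξ * ‖PC S e k (2 * M) ξ‖ ^ 2 := by
    have := sum_mul_sq_le_sq_mul_sq (range (2 * M)) (fun ξ => Real.sqrt (w ξ))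
      (fun ξ => Real.sqrt (w ξ) * ‖PC S e k (2 * M) ξ‖)
    refine le_trans (le_of_eq ?_) (this.trans (le_of_eq ?_))
    · congr 1
      apply sum_congr rfl
      intro ξ _
      rw [← mul_assoc, Real.mul_self_sqrt (hw0 ξ)]
    · congr 1
      · exact sum_congr rfl (fun ξ _ => Real.sq_sqrt (hw0 ξ))
      · apply sum_congr rfl
        intro ξ _
        rw [mul_pow, Real.sq_sqrt (hw0 ξ)]
  have h3 : (∑ ξ ∈ range (2 * M), w ξ * ‖PC S e k (2 * M) ξ‖ ^ 2) ^ 2 ≤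
      (∑ ξ ∈ range (2 * M), w ξ) * ∑ ξ ∈ range (2 * M), w ξ * ‖PC S e k (2 * M) ξ‖ ^ 4 := by
    have := sum_mul_sq_le_sq_mul_sq (range (2 * M)) (fun ξ => Real.sqrt (w ξ))
      (fun ξ => Real.sqrt (w ξ) * ‖PC S e k (2 * M) ξ‖ ^ 2)
    refine le_trans (le_of_eq ?_) (this.trans (le_of_eq ?_))
    · congr 1
      apply sum_congr rfl
      intro ξ _
      rw [← mul_assoc, Real.mul_self_sqrt (hw0 ξ)]
    · congr 1
      · exact sum_congr rfl (fun ξ _ => Real.sq_sqrt (hw0 ξ))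
      · apply sum_congr rfl
        intro ξ _
        rw [mul_pow, Real.sq_sqrt (hw0 ξ), ← pow_mul]
  have h4 : ∑ ξ ∈ range (2 * M), w ξ * ‖PC S e k (2 * M) ξ‖ ^ 4 ≤
      η * (M : ℝ) ^ 2 * (2 * M * (Quad S).card) := by
    calc ∑ ξ ∈ range (2 * M), w ξ * ‖PC S e k (2 * M) ξ‖ ^ 4 ≤
        ∑ ξ ∈ range (2 * M), η * (M : ℝ) ^ 2 * ‖PC S e k (2 * M) ξ‖ ^ 4 := by
          apply sum_le_sum
          intro ξ hξ
          exact mul_le_mul_of_nonneg_right (hwM ξ hξ) (by positivity)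
      _ = η * (M : ℝ) ^ 2 * ∑ ξ ∈ range (2 * M), ‖PC S e k (2 * M) ξ‖ ^ 4 := by rw [mul_sum]
      _ ≤ _ := by
          have h5 := fourthC S e k (2 * M) m hk he1 hS (by
            have : 0 < 2 ^ m := by positivity
            nlinarith)
          have h6 : 0 ≤ η * (M : ℝ) ^ 2 := le_trans (by positivity) (hη 0 le_rfl zero_le_one)
          push_cast at h5
          exact mul_le_mul_of_nonneg_left h5 h6
  obtain ⟨W, hW⟩ : ∃ W : ℝ, W = ∑ ξ ∈ range (2 * M), w ξ := ⟨_, rfl⟩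
  have hW0 : 0 ≤ W := by rw [hW]; exact sum_nonneg (fun ξ _ => hw0 ξ)
  rw [← hW] at h2 h3 hws
  rw [← hA]
  have hB0 : 0 ≤ ∑ ξ ∈ range (2 * M), w ξ * ‖PC S e k (2 * M) ξ‖ ^ 2 :=
    sum_nonneg (fun ξ _ => mul_nonneg (hw0 ξ) (by positivity))
  have h5 : (A * (M : ℝ) ^ 2) ^ 4 ≤ W ^ 3 * (η * (M : ℝ) ^ 2 * (2 * M * (Quad S).card)) := by
    calc (A * (M : ℝ) ^ 2) ^ 4 ≤ (∑ ξ ∈ range (2 * M), w ξ * ‖PC S e k (2 * M) ξ‖) ^ 4 :=
          pow_le_pow_left₀ (by positivity) h1 4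
      _ = ((∑ ξ ∈ range (2 * M), w ξ * ‖PC S e k (2 * M) ξ‖) ^ 2) ^ 2 := by ring
      _ ≤ (W * ∑ ξ ∈ range (2 * M), w ξ * ‖PC S e k (2 * M) ξ‖ ^ 2) ^ 2 :=
          pow_le_pow_left₀ (by positivity) h2 2
      _ = W ^ 2 * (∑ ξ ∈ range (2 * M), w ξ * ‖PC S e k (2 * M) ξ‖ ^ 2) ^ 2 := by ring
      _ ≤ W ^ 2 * (W * (η * (M : ℝ) ^ 2 * (2 * M * (Quad S).card))) := by
          apply mul_le_mul_of_nonneg_left _ (by positivity)
          exact h3.trans (mul_le_mul_of_nonneg_left h4 hW0)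
      _ = _ := by ring
  rw [hws] at h5
  have h6 : (A * (M : ℝ) ^ 2) ^ 4 = A ^ 4 * ((M : ℝ) ^ 8) := by ring
  have h7 : (2 * (M : ℝ) ^ 2 * ‖u‖ ^ 2) ^ 3 * (η * (M : ℝ) ^ 2 * (2 * M * (Quad S).card)) =
      (8 * η * ‖u‖ ^ 6 * (2 * M * (Quad S).card)) * (M : ℝ) ^ 8 := by ring
  rw [h6, h7] at h5
  have h8 := le_of_mul_le_mul_right h5 (by positivity)
  have h9 : 0 ≤ η := by
    have h10 := hη 0 le_rfl zero_le_one
    by_contra hc
    have : η * (M : ℝ) ^ 2 < 0 := mul_neg_of_neg_of_pos (not_le.1 hc) (by positivity)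
    have : (0 : ℝ) ≤ ‖TS U u M 0‖ ^ 2 := by positivity
    linarith
  have h10 : 0 ≤ η * ‖u‖ ^ 6 * (2 * M * (Quad S).card) := by positivity
  linarith

/-- **Row HIL.** The correlations of a vector without eigenvalue part along the multiples of the
primes of an octave tend to zero in the mean. -/
theorem whb [CompleteSpace E] (U : E →ₗᵢ[ℂ] E) (u : E)
    (hu : ∀ (z : ℂ) (v : E), ‖z‖ = 1 → U v = z • v → inner ℂ u v = 0) (k : ℕ) (hk : 1 ≤ k) :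
    Tendsto (fun m => (∑ q ∈ oct m, ‖inner ℂ u ((⇑U)^[q * k] u)‖) / ((oct m).card : ℝ))
      atTop (𝓝 0) := by
  obtain ⟨C, hC, hpen⟩ := pen
  obtain ⟨c, m₀, hc, hpil⟩ := Pool.Agent.H93.DE.pf_PIL
  obtain ⟨B, hB⟩ : ∃ B : ℕ, 4 * k ≤ 2 ^ B := ⟨4 * k, Nat.lt_two_pow_self.le⟩
  rw [Metric.tendsto_atTop]
  intro ε hε
  -- choice of the uniform bound
  obtain ⟨D, hD⟩ : ∃ D : ℝ, D = 32 * (‖u‖ ^ 6 + 1) * 2 ^ B * C / c ^ 4 := ⟨_, rfl⟩
  have hD0 : 0 < D := by rw [hD]; positivity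
  obtain ⟨δ, hδ⟩ : ∃ δ : ℝ, δ = ε ^ 4 / (2 * D) := ⟨_, rfl⟩
  have hδ0 : 0 < δ := by rw [hδ]; positivity
  obtain ⟨j₀, hj₀⟩ := TS_unif U u hu (Real.sqrt δ) (Real.sqrt_pos.2 hδ0)
  refine ⟨max (max j₀ m₀) 1, fun m hm => ?_⟩
  have hm1 : 1 ≤ m := le_trans (le_max_right _ _) hm
  have hmj : j₀ ≤ m := le_trans (le_trans (le_max_left _ _) (le_max_left _ _)) hm
  have hmm : m₀ ≤ m := le_trans (le_trans (le_max_right _ _) (le_max_left _ _)) hm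
  have hm0 : (0 : ℝ) < m := by exact_mod_cast hm1
  have hS : ∀ q ∈ oct m, q.Prime ∧ 2 ^ m ≤ q ∧ q ≤ 2 ^ (m + 1) := by
    intro q hq
    unfold oct at hq
    rw [mem_filter, mem_Ioc] at hq
    exact ⟨hq.2, hq.1.1.le, hq.1.2⟩
  have hcard := hpil m hmm
  have hcard0 : (0 : ℝ) < (oct m).card := lt_of_lt_of_le (by positivity) hcard
  have h1 := corr_le U u (oct m) m k (2 ^ (m + B)) δ hk
    (by
      rw [pow_add]
      calc 4 * 2 ^ m * k = 2 ^ m * (4 * k) := by ring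
        _ ≤ 2 ^ m * 2 ^ B := by gcongr)
    (fun q hq => (hS q hq).2)
    (by
      intro θ h0 h1
      have h2 := hj₀ (m + B) (by omega) θ h0 h1
      calc ‖TS U u (2 ^ (m + B)) θ‖ ^ 2 ≤ (Real.sqrt δ * 2 ^ (m + B)) ^ 2 := by gcongr
        _ = δ * ((2 ^ (m + B) : ℕ) : ℝ) ^ 2 := by
          rw [mul_pow, Real.sq_sqrt hδ0.le]
          push_cast
          ring)
  have h2 := hpen m (oct m) hm1 hS
  change ((Quad (oct m)).card : ℝ) ≤ _ at h2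
  obtain ⟨A, hA⟩ : ∃ A : ℝ, A = ∑ q ∈ oct m, ‖inner ℂ u ((⇑U)^[q * k] u)‖ := ⟨_, rfl⟩
  have hA0 : 0 ≤ A := by rw [hA]; exact sum_nonneg (fun _ _ => norm_nonneg _)
  rw [← hA] at h1 ⊢
  rw [Real.dist_eq, sub_zero, abs_of_nonneg (by positivity), div_lt_iff₀ hcard0]
  have h3 : A ^ 4 ≤ δ * D * ((oct m).card : ℝ) ^ 4 := by
    have h4 : ((2 : ℝ) ^ m) ^ 4 / (m : ℝ) ^ 4 * c ^ 4 ≤ ((oct m).card : ℝ) ^ 4 := by
      calc ((2 : ℝ) ^ m) ^ 4 / (m : ℝ) ^ 4 * c ^ 4 = (c * 2 ^ m / m) ^ 4 := by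
            field_simp
        _ ≤ _ := pow_le_pow_left₀ (by positivity) hcard 4
    calc A ^ 4 ≤ (16 * δ * ‖u‖ ^ 6) * (2 * ((2 ^ (m + B) : ℕ) : ℝ) * (Quad (oct m)).card) := h1
      _ ≤ (16 * δ * (‖u‖ ^ 6 + 1)) * (2 * ((2 ^ (m + B) : ℕ) : ℝ) *
          (C * ((2 : ℝ) ^ m) ^ 3 / (m : ℝ) ^ 4)) := by
            gcongr
            linarith
      _ = δ * D * (((2 : ℝ) ^ m) ^ 4 / (m : ℝ) ^ 4 * c ^ 4) := by
            rw [hD]
            push_cast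
            rw [pow_add]
            field_simp
            ring
      _ ≤ _ := by gcongr
  have h4 : δ * D < ε ^ 4 := by
    rw [hδ]
    rw [div_mul_eq_mul_div, div_lt_iff₀ (by positivity)]
    nlinarith [show (0 : ℝ) < ε ^ 4 * D by positivity]
  have h5 : A ^ 4 < (ε * (oct m).card) ^ 4 := by
    rw [mul_pow]
    refine lt_of_le_of_lt h3 ?_
    exact mul_lt_mul_of_pos_right h4 (by positivity)
  exact lt_of_pow_lt_pow_left₀ 4 (by positivity) h5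

end Pool.Agent.H56.WN
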